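import Mathlib
import Pool.Agent.W669.Cone.Lor
import Pool.Agent.W669.Cone.LorB

/-! Lorentzian forms: isometries preserving a subspace without timelike vectors grow at most
linearly on it, forwards or backwards in time; quotients by negative definite subspaces. -/

open scoped Topology
open Set Metric Filter Pool.Agent.W669.Cone

noncomputable section

namespace Pool.Agent.Q217.Wein

variable {m : ℕ} (q : Lor m)

/-- the orthogonal complement of a timelike vector is negative definite -/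
lemma neg_of_orth {t w : Fin m → ℝ} (ht : 0 < q.Q t t) (h : q.Q t w = 0) (hw : w ≠ 0) :
    q.Q w w < 0 := by
  by_contra hcon
  push Not at hcon
  set a := q.Q q.e t with ha
  set b := q.Q q.e w with hb
  have h1 : q.Q q.e (b • t + (-a) • w) = 0 := by
    rw [map_add, map_smul, map_smul, smul_eq_mul, smul_eq_mul, ← ha, ← hb]; ring
  have h2 := q.sq_comb b (-a) t w
  rw [h] at h2
  have h3 : 0 ≤ q.Q (b • t + (-a) • w) (b • t + (-a) • w) := by
    rw [h2]
    have := mul_nonneg (sq_nonneg a) hcon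
    nlinarith [sq_nonneg b]
  have h4 : b • t + (-a) • w = 0 := by
    by_contra hne
    exact absurd (q.neg _ h1 hne) (not_lt.2 h3)
  rw [h4] at h2
  simp only [map_zero] at h2
  have h5 : b = 0 := by
    by_contra hb0
    have h6 : 0 < b ^ 2 * q.Q t t := mul_pos (by positivity) ht
    have h7 := mul_nonneg (sq_nonneg a) hcon
    nlinarith
  rw [h5, zero_smul, zero_add, neg_smul, neg_eq_zero] at h4
  have h6 : a = 0 := (smul_eq_zero.1 h4).resolve_right hw
  have ht0 : t ≠ 0 := by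
    rintro rfl
    simp at ht
  exact absurd (q.neg t (ha ▸ h6) ht0) (not_lt.2 ht.le)

/-- the orthogonal complement of a null vector -/
lemma orth_null {n w : Fin m → ℝ} (hn : q.Q n n = 0) (hn0 : n ≠ 0) (h : q.Q n w = 0)
    (hw : q.Q w w = 0) : ∃ c : ℝ, w = c • n := by
  have ha : q.Q q.e n ≠ 0 := fun h0 => absurd (q.neg n h0 hn0) (by rw [hn]; exact lt_irrefl _)
  set c := q.Q q.e w / q.Q q.e n with hc
  refine ⟨c, ?_⟩
  by_contra hne
  have h1 : q.Q q.e (w + (-c) • n) = 0 := by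
    rw [map_add, map_smul, smul_eq_mul, hc]
    field_simp
    ring
  have h2 : w + (-c) • n ≠ 0 := by
    intro h0
    apply hne
    rw [neg_smul, ← sub_eq_add_neg, sub_eq_zero] at h0
    exact h0
  have h3 := q.neg _ h1 h2
  have h4 := q.sq_comb 1 (-c) w n
  rw [one_smul, q.symm w n, h, hn, hw] at h4
  rw [h4] at h3
  norm_num at h3

/-- null vectors of a subspace without timelike vectors are orthogonal to it -/
lemma orth_of_null {W : Submodule ℝ (Fin m → ℝ)} (hW : ∀ z ∈ W, q.Q z z ≤ 0) {n z : Fin m → ℝ}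
    (hn : n ∈ W) (hz : z ∈ W) (hnn : q.Q n n = 0) : q.Q n z = 0 := by
  by_contra hb
  set b := q.Q n z with hbd
  set d := q.Q z z with hd
  have hd0 : d ≤ 0 := hW z hz
  have h1 : 0 < 1 - d := by linarith
  have h2 := hW ((1:ℝ) • n + (b / (1 - d)) • z) (W.add_mem (W.smul_mem _ hn) (W.smul_mem _ hz))
  rw [q.sq_comb, hnn, ← hbd, ← hd] at h2
  have h3 : (1:ℝ) ^ 2 * 0 + 2 * (1 * (b / (1 - d))) * b + (b / (1 - d)) ^ 2 * d =
      b ^ 2 * (2 - d) / (1 - d) ^ 2 := by
    field_simp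
    ring
  rw [h3] at h2
  have h4 : 0 < b ^ 2 * (2 - d) / (1 - d) ^ 2 := by
    have : 0 < 2 - d := by linarith
    positivity
  linarith

/-- a continuous function, homogeneous of degree two and positive on a subspace, bounds the norm -/
lemma norm_bound (W : Submodule ℝ (Fin m → ℝ)) (F : (Fin m → ℝ) → ℝ) (hF : Continuous F)
    (hh : ∀ (c : ℝ) z, F (c • z) = c ^ 2 * F z) (hpos : ∀ z ∈ W, z ≠ 0 → 0 < F z) :
    ∃ C : ℝ, 0 ≤ C ∧ ∀ z ∈ W, ‖z‖ ^ 2 ≤ C * F z := by
  by_cases hne : (sphere (0 : Fin m → ℝ) 1 ∩ W).Nonempty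
  · have hcomp : IsCompact (sphere (0 : Fin m → ℝ) 1 ∩ W) :=
      (isCompact_sphere _ _).inter_right W.closed_of_finiteDimensional
    obtain ⟨z₀, ⟨hz₁, hz₂⟩, hmin⟩ := hcomp.exists_isMinOn hne hF.continuousOn
    have hz0 : z₀ ≠ 0 := by
      rintro rfl
      simp at hz₁
    have hp := hpos z₀ hz₂ hz0
    refine ⟨(F z₀)⁻¹, (inv_pos.2 hp).le, fun z hz => ?_⟩
    by_cases h0 : z = 0
    · subst h0
      have : F 0 = 0 := by
        have := hh 0 0
        simpa using this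
      rw [this, norm_zero]; norm_num
    · have hn : 0 < ‖z‖ := norm_pos_iff.2 h0
      have h1 : (‖z‖⁻¹ • z) ∈ sphere (0 : Fin m → ℝ) 1 ∩ W := by
        refine ⟨?_, W.smul_mem _ hz⟩
        rw [mem_sphere_zero_iff_norm, norm_smul, norm_inv, norm_norm, inv_mul_cancel₀ hn.ne']
      have h2 : F z₀ ≤ F (‖z‖⁻¹ • z) := hmin h1
      rw [hh] at h2
      have h3 : F z₀ * ‖z‖ ^ 2 ≤ F z := by
        have h4 := mul_le_mul_of_nonneg_right h2 (sq_nonneg ‖z‖)
        have h5 : ‖z‖⁻¹ ^ 2 * F z * ‖z‖ ^ 2 = F z := by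
          field_simp
        rwa [h5] at h4
      rw [inv_mul_eq_div, le_div_iff₀ hp, mul_comm]
      exact h3
  · refine ⟨0, le_rfl, fun z hz => ?_⟩
    have h0 : z = 0 := by
      by_contra h0
      have hn : 0 < ‖z‖ := norm_pos_iff.2 h0
      apply hne
      refine ⟨‖z‖⁻¹ • z, ?_, W.smul_mem _ hz⟩
      rw [mem_sphere_zero_iff_norm, norm_smul, norm_inv, norm_norm, inv_mul_cancel₀ hn.ne']
    rw [h0, norm_zero]
    norm_num

/-- at most linear growth on a subspace -/
def LinGrowth (T : (Fin m → ℝ) →ₗ[ℝ] (Fin m → ℝ)) (W : Submodule ℝ (Fin m → ℝ)) : Prop :=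
  ∀ z ∈ W, ∃ K : ℝ, ∀ j : ℕ, ‖(T ^ j) z‖ ≤ K * (1 + j)

section growth

variable {T : (Fin m → ℝ) →ₗ[ℝ] (Fin m → ℝ)} {W : Submodule ℝ (Fin m → ℝ)}

lemma pow_mem (hTW : ∀ z ∈ W, T z ∈ W) (j : ℕ) {z : Fin m → ℝ} (hz : z ∈ W) : (T ^ j) z ∈ W := by
  induction j with
  | zero => exact hz
  | succ j ih =>
    rw [pow_succ']
    exact hTW _ ih

variable {q}

lemma pow_isom (hT : ∀ u v, q.Q (T u) (T v) = q.Q u v) (j : ℕ) (u v : Fin m → ℝ) :
    q.Q ((T ^ j) u) ((T ^ j) v) = q.Q u v := by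
  induction j with
  | zero => rfl
  | succ j ih =>
    rw [pow_succ']
    exact (hT _ _).trans ih

/-- growth for negative definite subspaces -/
lemma growth_neg (hW : ∀ z ∈ W, z ≠ 0 → q.Q z z < 0) (hT : ∀ u v, q.Q (T u) (T v) = q.Q u v)
    (hTW : ∀ z ∈ W, T z ∈ W) : LinGrowth T W := by
  obtain ⟨C, hC, h⟩ := norm_bound W (fun z => - q.Q z z)
    (q.cont continuous_id continuous_id).neg
    (by intro c z; simp only [map_smul, LinearMap.smul_apply, smul_eq_mul]; ring)
    (fun z hz h0 => neg_pos.2 (hW z hz h0))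
  intro z hz
  refine ⟨Real.sqrt (C * (- q.Q z z)), fun j => ?_⟩
  have h1 := h _ (pow_mem hTW j hz)
  simp only [pow_isom hT] at h1
  have h2 : ‖(T ^ j) z‖ ≤ Real.sqrt (C * (- q.Q z z)) := Real.le_sqrt_of_sq_le h1
  refine h2.trans ?_
  have h3 := Real.sqrt_nonneg (C * (- q.Q z z))
  have h4 : (0:ℝ) ≤ j := Nat.cast_nonneg j
  nlinarith

/-- growth in the presence of a null vector which is not expanded -/
lemma growth_null (hW : ∀ z ∈ W, q.Q z z ≤ 0) (hT : ∀ u v, q.Q (T u) (T v) = q.Q u v)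
    (hTW : ∀ z ∈ W, T z ∈ W) {n : Fin m → ℝ} (hn : n ∈ W) (hn0 : n ≠ 0) (hnn : q.Q n n = 0)
    {c : ℝ} (hc : |c| ≤ 1) (hTn : T n = c • n) : LinGrowth T W := by
  have ha : q.Q q.e n ≠ 0 := fun h0 => absurd (q.neg n h0 hn0) (by rw [hnn]; exact lt_irrefl _)
  obtain ⟨C, hC, h⟩ := norm_bound W (fun z => - q.Q z z + q.Q q.e z ^ 2)
    ((q.cont continuous_id continuous_id).neg.add ((q.cont continuous_const continuous_id).pow 2))
    (by intro c z; simp only [map_smul, LinearMap.smul_apply, smul_eq_mul]; ring)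
    (fun z hz h0 => by
      have h1 := hW z hz
      by_cases h2 : q.Q q.e z = 0
      · have h3 := q.neg z h2 h0
        show 0 < - q.Q z z + q.Q q.e z ^ 2
        rw [h2]
        linarith
      · show 0 < - q.Q z z + q.Q q.e z ^ 2
        have h3 : 0 < q.Q q.e z ^ 2 := by positivity
        linarith)
  obtain ⟨L, hL0, hL⟩ : ∃ L : ℝ, 0 ≤ L ∧ ∀ w, |q.Q q.e (T w)| ≤ L * ‖w‖ := by
    let f : (Fin m → ℝ) →L[ℝ] ℝ := LinearMap.toContinuousLinearMap ((q.Q q.e).comp T)
    exact ⟨‖f‖, norm_nonneg _, fun w => f.le_opNorm w⟩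
  intro z hz
  set D := L * Real.sqrt (C * (- q.Q z z)) with hD
  have hD0 : 0 ≤ D := mul_nonneg hL0 (Real.sqrt_nonneg _)
  -- one step
  have hstep : ∀ j : ℕ, |q.Q q.e ((T ^ (j + 1)) z)| ≤ |q.Q q.e ((T ^ j) z)| + D := by
    intro j
    set y := (T ^ j) z with hy
    have hyW : y ∈ W := pow_mem hTW j hz
    have hyy : q.Q y y = q.Q z z := pow_isom hT j z z
    set s := q.Q q.e y / q.Q q.e n with hs
    set w := y + (-s) • n with hw
    have hwW : w ∈ W := W.add_mem hyW (W.smul_mem _ hn)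
    have hew : q.Q q.e w = 0 := by
      rw [hw, map_add, map_smul, smul_eq_mul, hs]
      field_simp
      ring
    have hww : q.Q w w = q.Q z z := by
      have h4 := q.sq_comb 1 (-s) y n
      rw [one_smul, ← hw, q.symm y n, orth_of_null q hW hn hyW hnn, hnn, hyy] at h4
      rw [h4]; ring
    have hwn : ‖w‖ ≤ Real.sqrt (C * (- q.Q z z)) := by
      apply Real.le_sqrt_of_sq_le
      have h5 := h w hwW
      simp only [hew, hww] at h5
      refine h5.trans (le_of_eq ?_)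
      ring
    have h6 : (T ^ (j + 1)) z = T w + s • (c • n) := by
      rw [pow_succ']
      show T y = _
      rw [← hTn, ← map_smul, ← map_add, hw]
      congr 1
      rw [neg_smul]; abel
    rw [h6, map_add, map_smul, map_smul, smul_eq_mul, smul_eq_mul]
    have h7 : s * (c * q.Q q.e n) = c * q.Q q.e y := by
      rw [hs]
      field_simp
    rw [h7]
    refine (abs_add_le _ _).trans ?_
    rw [abs_mul, add_comm]
    have h8 : |c| * |q.Q q.e y| ≤ |q.Q q.e y| := by
      have := abs_nonneg (q.Q q.e y)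
      nlinarith
    have h9 : |q.Q q.e (T w)| ≤ D := (hL w).trans (mul_le_mul_of_nonneg_left hwn hL0)
    linarith
  have hlin : ∀ j : ℕ, |q.Q q.e ((T ^ j) z)| ≤ |q.Q q.e z| + j * D := by
    intro j
    induction j with
    | zero => simp
    | succ j ih =>
      refine (hstep j).trans ?_
      push_cast
      linarith
  set M := Real.sqrt (C * (- q.Q z z + (|q.Q q.e z| + D) ^ 2)) with hM
  refine ⟨M, fun j => ?_⟩
  have h1 := h _ (pow_mem hTW j hz)
  simp only [pow_isom hT] at h1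
  have hzz : 0 ≤ - q.Q z z := by have := hW z hz; linarith
  have hj : (0:ℝ) ≤ j := Nat.cast_nonneg j
  have h2 : - q.Q z z + q.Q q.e ((T ^ j) z) ^ 2 ≤
      (- q.Q z z + (|q.Q q.e z| + D) ^ 2) * (1 + j) ^ 2 := by
    have h3 : q.Q q.e ((T ^ j) z) ^ 2 ≤ ((|q.Q q.e z| + D) * (1 + j)) ^ 2 := by
      rw [← sq_abs]
      refine pow_le_pow_left₀ (abs_nonneg _) ((hlin j).trans ?_) 2
      have := abs_nonneg (q.Q q.e z)
      nlinarith
    have h4 : - q.Q z z ≤ - q.Q z z * (1 + j) ^ 2 := by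
      have h5 : (1:ℝ) ≤ (1 + j) ^ 2 := by nlinarith
      nlinarith
    nlinarith
  have h3 : ‖(T ^ j) z‖ ^ 2 ≤ C * (- q.Q z z + (|q.Q q.e z| + D) ^ 2) * (1 + j) ^ 2 := by
    refine h1.trans ?_
    rw [mul_assoc]
    exact mul_le_mul_of_nonneg_left h2 hC
  have h4 : ‖(T ^ j) z‖ ≤ Real.sqrt (C * (- q.Q z z + (|q.Q q.e z| + D) ^ 2) * (1 + j) ^ 2) :=
    Real.le_sqrt_of_sq_le h3
  refine h4.trans (le_of_eq ?_)
  rw [Real.sqrt_mul (mul_nonneg hC (by positivity)), Real.sqrt_sq (by positivity)]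

/-- **Growth.** An isometry or its inverse grows at most linearly on an invariant subspace without
timelike vectors. -/
theorem growth (hW : ∀ z ∈ W, q.Q z z ≤ 0) {S : (Fin m → ℝ) →ₗ[ℝ] (Fin m → ℝ)}
    (hTS : ∀ v, T (S v) = v) (hST : ∀ v, S (T v) = v)
    (hT : ∀ u v, q.Q (T u) (T v) = q.Q u v)
    (hTW : ∀ z ∈ W, T z ∈ W) (hSW : ∀ z ∈ W, S z ∈ W) : LinGrowth T W ∨ LinGrowth S W := by
  have hS : ∀ u v, q.Q (S u) (S v) = q.Q u v := by
    intro u v
    rw [← hT, hTS, hTS]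
  by_cases hneg : ∀ z ∈ W, z ≠ 0 → q.Q z z < 0
  · exact Or.inl (growth_neg hneg hT hTW)
  push Not at hneg
  obtain ⟨n, hn, hn0, hnn⟩ := hneg
  have hnn : q.Q n n = 0 := le_antisymm (hW n hn) hnn
  obtain ⟨c, hc⟩ := orth_null q hnn hn0 (orth_of_null q hW hn (hTW n hn) hnn)
    (by rw [hT]; exact hnn)
  have hc0 : c ≠ 0 := by
    rintro rfl
    apply hn0
    rw [← hST n, hc, zero_smul, map_zero]
  rcases le_total |c| 1 with h | h
  · exact Or.inl (growth_null hW hT hTW hn hn0 hnn h hc)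
  · refine Or.inr (growth_null hW hS hSW hn hn0 hnn (c := c⁻¹) ?_ ?_)
    · rw [abs_inv]
      exact inv_le_one_of_one_le₀ h
    · have h1 : S (T n) = c • S n := by rw [hc, map_smul]
      rw [hST] at h1
      rw [h1, smul_smul, inv_mul_cancel₀ hc0, one_smul]
      rw [← h1]

end growth

/-- the form identifies vectors and covectors -/
lemma exists_rep (f : (Fin m → ℝ) →ₗ[ℝ] ℝ) : ∃ z, ∀ w, q.Q z w = f w := by
  have hinj : Function.Injective q.Q := by
    rw [← LinearMap.ker_eq_bot, LinearMap.ker_eq_bot']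
    intro z hz
    by_contra h0
    have h1 : q.Q q.e z = 0 := by rw [q.symm, hz]; rfl
    have h2 := q.neg z h1 h0
    rw [hz] at h2
    exact lt_irrefl _ h2
  have hfr : Module.finrank ℝ (Fin m → ℝ) = Module.finrank ℝ ((Fin m → ℝ) →ₗ[ℝ] ℝ) := by
    rw [Module.finrank_linearMap, Module.finrank_self, mul_one]
  have hsurj := (LinearMap.injective_iff_surjective_of_finrank_eq_finrank hfr).1 hinj
  obtain ⟨z, hz⟩ := hsurj f
  exact ⟨z, fun w => by rw [hz]⟩

end Pool.Agent.Q217.Wein
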