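import Mathlib
import Pool.Agent.Y759.TS.Kol

/-! Integral matrices whose powers grow polynomially; common fixed vectors of groups of unipotent
integral matrices. -/

open scoped Topology
open Filter

noncomputable section

namespace Pool.Agent.Q217.Wein

/-- a product of a geometric sequence of ratio `2/3` and an affine one is small -/
lemma exists_small (K : ℝ) : ∃ k : ℕ, K * (1 + k) * 2 ^ k < 3 ^ k := by
  have h1 : Tendsto (fun k : ℕ => K * ((2/3 : ℝ) ^ k + (k : ℝ) * (2/3 : ℝ) ^ k)) atTop (𝓝 (K * (0 + 0))) :=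
    ((tendsto_pow_atTop_nhds_zero_of_lt_one (by norm_num) (by norm_num)).add
      (tendsto_self_mul_const_pow_of_lt_one (by norm_num) (by norm_num))).const_mul K
  have h2 : ∀ᶠ k : ℕ in atTop, K * ((2/3 : ℝ) ^ k + (k : ℝ) * (2/3 : ℝ) ^ k) < 1 := by
    apply h1.eventually_lt_const
    norm_num
  obtain ⟨k, hk⟩ := h2.exists
  refine ⟨k, ?_⟩
  have h3 : (2/3 : ℝ) ^ k = 2 ^ k / 3 ^ k := by rw [div_pow]
  have h4 : (0:ℝ) < 3 ^ k := by positivity
  rw [h3] at hk
  have h5 : K * ((2:ℝ) ^ k / 3 ^ k + k * (2 ^ k / 3 ^ k)) = K * (1 + k) * 2 ^ k / 3 ^ k := by ring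
  rw [h5, div_lt_one h4] at hk
  exact hk

/-- **Lemma.** If `1 + 3 C` has powers of linear growth, then `C` is nilpotent. -/
theorem nilpotent_of_growth {r : ℕ} (C : Matrix (Fin r) (Fin r) ℤ) (K : ℝ)
    (h : ∀ (j : ℕ) (a b : Fin r), |((((1 + 3 • C : Matrix (Fin r) (Fin r) ℤ) ^ j) a b : ℤ) : ℝ)| ≤ K * (1 + j)) :
    IsNilpotent C := by
  obtain ⟨k, hk⟩ := exists_small K
  refine ⟨k, ?_⟩
  ext a b
  rw [Matrix.zero_apply]
  have h1 : (3 • C) ^ k = ∑ i ∈ Finset.range (k + 1), (1 + 3 • C) ^ i * (-1) ^ (k - i) * (k.choose i : Matrix (Fin r) (Fin r) ℤ) := by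
    have h2 : (3 • C) = (1 + 3 • C) + (-1) := by abel
    conv_lhs => rw [h2]
    rw [Commute.add_pow]
    exact (Commute.neg_right (Commute.one_right _))
  have h2 : |((((3 • C) ^ k) a b : ℤ) : ℝ)| ≤ K * (1 + k) * 2 ^ k := by
    rw [h1, Matrix.sum_apply]
    push_cast
    refine (Finset.abs_sum_le_sum_abs _ _).trans ?_
    have h3 : ∀ i ∈ Finset.range (k + 1),
        |((((1 + 3 • C : Matrix (Fin r) (Fin r) ℤ) ^ i * (-1) ^ (k - i) * (k.choose i : Matrix (Fin r) (Fin r) ℤ) : Matrix (Fin r) (Fin r) ℤ) a b : ℤ) : ℝ)| ≤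
          (K * (1 + k)) * (k.choose i : ℝ) := by
      intro i hi
      have h4 : (((1 + 3 • C : Matrix (Fin r) (Fin r) ℤ) ^ i * (-1) ^ (k - i) * (k.choose i : Matrix (Fin r) (Fin r) ℤ) : Matrix (Fin r) (Fin r) ℤ) a b : ℤ) =
          (-1) ^ (k - i) * ((k.choose i : ℤ) * (((1 + 3 • C : Matrix (Fin r) (Fin r) ℤ) ^ i) a b)) := by
        have h5 : ((-1 : Matrix (Fin r) (Fin r) ℤ)) ^ (k - i) = ((-1 : ℤ) ^ (k - i)) • (1 : Matrix (Fin r) (Fin r) ℤ) := by
          rcases Nat.even_or_odd (k - i) with he | ho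
          · rw [he.neg_one_pow, he.neg_one_pow, one_smul]
          · rw [ho.neg_one_pow, ho.neg_one_pow, neg_smul, one_smul]
        have h6 : ((k.choose i : Matrix (Fin r) (Fin r) ℤ)) = (k.choose i : ℤ) • (1 : Matrix (Fin r) (Fin r) ℤ) := by
          simp
        rw [h5, h6]
        simp only [mul_smul_comm, mul_one, Matrix.smul_apply, smul_eq_mul]
        ring
      rw [h4]
      push_cast
      rw [abs_mul, abs_pow, abs_neg, abs_one, one_pow, one_mul, abs_mul]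
      have h7 : |((k.choose i : ℕ) : ℝ)| = (k.choose i : ℝ) := abs_of_nonneg (by positivity)
      rw [h7, mul_comm]
      refine mul_le_mul_of_nonneg_right ?_ (by positivity)
      refine (h i a b).trans ?_
      have h8 : 0 ≤ K := by
        have := h 0 a b
        have h9 := (abs_nonneg _).trans this
        push_cast at h9
        linarith
      have h10 : (i : ℝ) ≤ k := by
        exact_mod_cast Nat.lt_succ_iff.1 (Finset.mem_range.1 hi)
      nlinarith
    refine (Finset.sum_le_sum h3).trans ?_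
    rw [← Finset.mul_sum]
    have h4 : ∑ i ∈ Finset.range (k + 1), (k.choose i : ℝ) = 2 ^ k := by
      exact_mod_cast Nat.sum_range_choose k
    rw [h4]
  have h3 : (((3 • C) ^ k) a b : ℤ) = 3 ^ k * ((C ^ k) a b) := by
    have h4 : (3 • C) ^ k = (3 ^ k : ℤ) • C ^ k := by
      have h5 : (3 • C : Matrix (Fin r) (Fin r) ℤ) = (3 : ℤ) • C := by
        rw [← natCast_zsmul]; rfl
      rw [h5, smul_pow]
    rw [h4, Matrix.smul_apply, smul_eq_mul]
  rw [h3] at h2
  push_cast at h2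
  rw [abs_mul] at h2
  have h4 : |(3:ℝ) ^ k| = 3 ^ k := abs_of_pos (by positivity)
  rw [h4] at h2
  have h5 : (3:ℝ) ^ k * |(((C ^ k) a b : ℤ) : ℝ)| < 3 ^ k * 1 := by
    rw [mul_one]
    exact lt_of_le_of_lt h2 hk
  have h6 : |(((C ^ k) a b : ℤ) : ℝ)| < 1 := lt_of_mul_lt_mul_left h5 (by positivity)
  have h7 : |((C ^ k) a b : ℤ)| < 1 := by exact_mod_cast h6
  exact Int.abs_lt_one_iff.1 h7

/-- **Common fixed vectors.** A group of unipotent integral matrices of positive size fixes a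
nonzero integral vector. -/
theorem exists_fixed_int {r : ℕ} (hr : 0 < r) {Γ : Type*} [Group Γ]
    (B : Γ →* Matrix (Fin r) (Fin r) ℤ) (hB : ∀ γ, IsNilpotent (B γ - 1)) :
    ∃ k : Fin r → ℤ, k ≠ 0 ∧ ∀ γ, (B γ).mulVec k = k := by
  classical
  let G : Subgroup (Matrix (Fin r) (Fin r) ℤ)ˣ := (B.toHomUnits).range
  let c : Matrix (Fin r) (Fin r) ℤ →+* Matrix (Fin r) (Fin r) ℂ := (Int.castRingHom ℂ).mapMatrix
  let φ : G →* Module.End ℂ (Fin r → ℂ) :=
    { toFun := fun g => Matrix.toLinAlgEquiv' (c ((g : (Matrix (Fin r) (Fin r) ℤ)ˣ) : Matrix (Fin r) (Fin r) ℤ))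
      map_one' := by simp
      map_mul' := by intro a b; simp }
  have hφ : ∀ g, IsNilpotent (φ g - 1) := by
    rintro ⟨_, γ, rfl⟩
    have h1 : φ ⟨B.toHomUnits γ, γ, rfl⟩ - 1 = Matrix.toLinAlgEquiv' (c (B γ - 1)) := by
      rw [map_sub, map_one, map_sub, map_one]
      rfl
    rw [h1]
    exact ((hB γ).map c).map (Matrix.toLinAlgEquiv' (R := ℂ) (n := Fin r))
  have : Nonempty (Fin r) := ⟨⟨0, hr⟩⟩
  obtain ⟨v, hv0, hv⟩ := Pool.Agent.Y759.TS.fixed_vec (k := ℂ) (G := G) _ (Fin r → ℂ) φ hφ le_rfl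
  have hv' : ∀ (γ : Γ) (i : Fin r), ∑ j, ((B γ i j : ℤ) : ℂ) * v j = v i := by
    intro γ i
    have h1 := congrFun (hv ⟨B.toHomUnits γ, γ, rfl⟩) i
    exact h1
  -- a rational functional
  obtain ⟨i₀, hi₀⟩ : ∃ i, v i ≠ 0 := by
    by_contra hcon
    push Not at hcon
    exact hv0 (funext hcon)
  obtain ⟨f, hf⟩ : ∃ f : ℂ →ₗ[ℚ] ℚ, f (v i₀) ≠ 0 := by
    by_contra hcon
    push Not at hcon
    exact hi₀ ((Module.forall_dual_apply_eq_zero_iff ℚ (v i₀)).1 hcon)
  let w : Fin r → ℚ := fun i => f (v i)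
  have hw : ∀ (γ : Γ) (i : Fin r), ∑ j, ((B γ i j : ℤ) : ℚ) * w j = w i := by
    intro γ i
    have h1 := congrArg f (hv' γ i)
    rw [map_sum] at h1
    refine Eq.trans ?_ h1
    refine Finset.sum_congr rfl fun j _ => ?_
    have h2 : ((B γ i j : ℤ) : ℂ) * v j = ((B γ i j : ℤ) : ℚ) • v j := by
      rw [Rat.smul_def]
      simp
    rw [h2, map_smul, smul_eq_mul]
  -- clear denominators
  obtain ⟨d, hd0, hd⟩ : ∃ d : ℤ, d ≠ 0 ∧ ∀ i, ∃ z : ℤ, (z : ℚ) = d * w i := by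
    refine ⟨∏ i, ((w i).den : ℤ), Finset.prod_ne_zero_iff.2 fun i _ => by exact_mod_cast (w i).den_ne_zero, fun i => ?_⟩
    refine ⟨(∏ j ∈ Finset.univ.erase i, ((w j).den : ℤ)) * (w i).num, ?_⟩
    rw [← Finset.mul_prod_erase Finset.univ (fun j => ((w j).den : ℤ)) (Finset.mem_univ i)]
    push_cast
    have h1 : ((w i).den : ℚ) * w i = (w i).num := by
      rw [mul_comm]; exact Rat.mul_den_eq_num (w i)
    calc (∏ j ∈ Finset.univ.erase i, ((w j).den : ℚ)) * ((w i).num : ℚ)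
        = (∏ j ∈ Finset.univ.erase i, ((w j).den : ℚ)) * (((w i).den : ℚ) * w i) := by rw [h1]
      _ = _ := by ring
  choose k hk using hd
  refine ⟨k, ?_, ?_⟩
  · intro h0
    have h1 := hk i₀
    rw [h0] at h1
    simp only [Pi.zero_apply, Int.cast_zero] at h1
    rcases mul_eq_zero.1 h1.symm with h | h
    · exact hd0 (by exact_mod_cast h)
    · exact hf h
  · intro γ
    ext i
    have h1 : (((B γ).mulVec k i : ℤ) : ℚ) = (k i : ℚ) := by
      rw [hk i, ← hw γ i]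
      simp only [Matrix.mulVec, dotProduct]
      push_cast
      rw [Finset.mul_sum]
      refine Finset.sum_congr rfl fun j _ => ?_
      rw [hk j]
      ring
    exact_mod_cast h1

end Pool.Agent.Q217.Wein
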