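import Mathlib
import Pool.Agent.Q217.Wein.LorAlg
import Pool.Agent.Q217.Wein.Uni

/-! The action of integral isometries of a Lorentzian form on the quotient by a rational subspace. -/

open scoped Topology
open Set Metric Filter Pool.Agent.W669.Cone

noncomputable section

namespace Pool.Agent.Q217.Wein

/-- the real linear map of an integral matrix -/
def rl {a b : ℕ} (M : Matrix (Fin a) (Fin b) ℤ) : (Fin b → ℝ) →ₗ[ℝ] (Fin a → ℝ) :=
  Matrix.mulVecLin (M.map (Int.cast : ℤ → ℝ))

lemma rl_mul {a b c : ℕ} (M : Matrix (Fin a) (Fin b) ℤ) (N : Matrix (Fin b) (Fin c) ℤ)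
    (v : Fin c → ℝ) : rl (M * N) v = rl M (rl N v) := by
  have h1 : (M * N).map (Int.cast : ℤ → ℝ) = M.map (Int.cast : ℤ → ℝ) * N.map (Int.cast : ℤ → ℝ) := by
    ext i j
    simp [Matrix.mul_apply]
  show ((M * N).map (Int.cast : ℤ → ℝ)).mulVec v = _
  rw [h1, ← Matrix.mulVec_mulVec]
  rfl

lemma rl_one {a : ℕ} (v : Fin a → ℝ) : rl (1 : Matrix (Fin a) (Fin a) ℤ) v = v := by
  have h1 : (1 : Matrix (Fin a) (Fin a) ℤ).map (Int.cast : ℤ → ℝ) = 1 := by
    ext i j
    simp [Matrix.one_apply]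
  show ((1 : Matrix (Fin a) (Fin a) ℤ).map (Int.cast : ℤ → ℝ)).mulVec v = _
  rw [h1, Matrix.one_mulVec]

lemma rl_entry {a b : ℕ} (M : Matrix (Fin a) (Fin b) ℤ) (i : Fin a) (j : Fin b) :
    rl M (Pi.single j 1) i = ((M i j : ℤ) : ℝ) := by
  show ((M.map (Int.cast : ℤ → ℝ)).mulVec (Pi.single j 1)) i = _
  rw [Matrix.mulVec_single_one]
  rfl

variable {m r : ℕ} (q : Lor m) (J : Matrix (Fin m) (Fin r) ℤ) (Q : Matrix (Fin r) (Fin m) ℤ)

/-- an integral isometry preserving the kernel of `Q` -/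
structure Good (B : Matrix (Fin m) (Fin m) ℤ) : Prop where
  isom : ∀ u v, q.Q (rl B u) (rl B v) = q.Q u v
  ker : ∀ v, rl Q v = 0 → rl Q (rl B v) = 0

/-- the orthogonal complement of the kernel of `Q` -/
def perp : Submodule ℝ (Fin m → ℝ) where
  carrier := {z | ∀ n, rl Q n = 0 → q.Q z n = 0}
  add_mem' := by
    intro a b ha hb n hn
    rw [map_add, LinearMap.add_apply, ha n hn, hb n hn, add_zero]
  zero_mem' := by intro n _; simp
  smul_mem' := by
    intro c a ha n hn
    rw [map_smul, LinearMap.smul_apply, ha n hn, smul_zero]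

variable {q J Q}

lemma Good.injective {B : Matrix (Fin m) (Fin m) ℤ} (h : Good q Q B) :
    Function.Injective (rl B) := by
  rw [← LinearMap.ker_eq_bot, LinearMap.ker_eq_bot']
  intro z hz
  by_contra h0
  have h1 : ∀ w, q.Q w z = 0 := by
    intro w
    rw [← h.isom, hz, map_zero]
  have h2 := q.neg z (h1 _) h0
  rw [h1] at h2
  exact lt_irrefl _ h2

/-- the inverse isometry and the invariance of all subspaces -/
lemma Good.inverse {B : Matrix (Fin m) (Fin m) ℤ} (h : Good q Q B) :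
    ∃ S : (Fin m → ℝ) →ₗ[ℝ] (Fin m → ℝ), (∀ v, rl B (S v) = v) ∧ (∀ v, S (rl B v) = v) ∧
      (∀ v, rl Q v = 0 → rl Q (S v) = 0) ∧ (∀ z ∈ perp q Q, rl B z ∈ perp q Q) ∧
      ∀ z ∈ perp q Q, S z ∈ perp q Q := by
  let e := LinearEquiv.ofInjectiveEndo (rl B) h.injective
  let S : (Fin m → ℝ) →ₗ[ℝ] (Fin m → ℝ) := e.symm
  have h1 : ∀ v, rl B (S v) = v := fun v => e.apply_symm_apply v
  have h2 : ∀ v, S (rl B v) = v := fun v => e.symm_apply_apply v
  have h3 : ∀ v, rl Q v = 0 → rl Q (S v) = 0 := by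
    intro v hv
    let N := LinearMap.ker (rl Q)
    let T' : N →ₗ[ℝ] N := (rl B).restrict (fun v hv => h.ker v hv)
    have hinj : Function.Injective T' := by
      intro a b hab
      exact Subtype.ext (h.injective (congrArg Subtype.val hab))
    obtain ⟨⟨w, hw⟩, hwv⟩ := (LinearMap.injective_iff_surjective.1 hinj) ⟨v, hv⟩
    have h4 : rl B w = v := congrArg Subtype.val hwv
    rw [← h4, h2]
    exact hw
  refine ⟨S, h1, h2, h3, ?_, ?_⟩
  · intro z hz n hn
    rw [← h1 n, h.isom]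
    exact hz _ (h3 n hn)
  · intro z hz n hn
    rw [← h.isom, h1]
    exact hz _ (h.ker n hn)

lemma ker_sub (hQJ : Q * J = 1) (w : Fin m → ℝ) : rl Q (rl J (rl Q w) - w) = 0 := by
  rw [map_sub, ← rl_mul, hQJ, rl_one, sub_self]

/-- a map preserving the kernel of `Q` passes to the quotient -/
lemma quot_apply (hQJ : Q * J = 1) {T : (Fin m → ℝ) →ₗ[ℝ] (Fin m → ℝ)}
    (hT : ∀ v, rl Q v = 0 → rl Q (T v) = 0) (w : Fin m → ℝ) :
    rl Q (T (rl J (rl Q w))) = rl Q (T w) := by
  have h1 := hT _ (ker_sub hQJ w)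
  rw [map_sub, map_sub, sub_eq_zero] at h1
  exact h1

lemma quot_pow (hQJ : Q * J = 1) {T : (Fin m → ℝ) →ₗ[ℝ] (Fin m → ℝ)}
    (hT : ∀ v, rl Q v = 0 → rl Q (T v) = 0) {D : Matrix (Fin r) (Fin r) ℤ}
    (hD : ∀ v, rl D v = rl Q (T (rl J v))) (j : ℕ) (v : Fin r → ℝ) :
    rl (D ^ j) v = rl Q ((T ^ j) (rl J v)) := by
  induction j with
  | zero =>
    rw [pow_zero, pow_zero, rl_one]
    show v = rl Q (rl J v)
    rw [← rl_mul, hQJ, rl_one]
  | succ j ih =>
    rw [pow_succ', pow_succ', rl_mul, ih, hD]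
    show rl Q (T (rl J (rl Q _))) = rl Q (T ((T ^ j) (rl J v)))
    exact quot_apply hQJ hT _

/-- growth of the isometry on the orthogonal complement of the kernel bounds the powers of the
inverse on the quotient -/
lemma bound_of_growth (hQJ : Q * J = 1) {T S : (Fin m → ℝ) →ₗ[ℝ] (Fin m → ℝ)}
    (hST : ∀ v, S (T v) = v) (hS : ∀ u v, q.Q (S u) (S v) = q.Q u v)
    (hT : ∀ v, rl Q v = 0 → rl Q (T v) = 0) (hg : LinGrowth S (perp q Q))
    {D : Matrix (Fin r) (Fin r) ℤ} (hD : ∀ v, rl D v = rl Q (T (rl J v))) :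
    ∃ K : ℝ, ∀ (j : ℕ) (a b : Fin r), |(((D ^ j) a b : ℤ) : ℝ)| ≤ K * (1 + j) := by
  have key : ∀ a b : Fin r, ∃ K : ℝ, 0 ≤ K ∧ ∀ j : ℕ, |(((D ^ j) a b : ℤ) : ℝ)| ≤ K * (1 + j) := by
    intro a b
    obtain ⟨z, hz⟩ := exists_rep q ((LinearMap.proj a).comp (rl Q))
    have hzW : z ∈ perp q Q := by
      intro n hn
      rw [hz]
      show (rl Q n) a = 0
      rw [hn]; rfl
    obtain ⟨K, hK⟩ := hg z hzW
    obtain ⟨L, hL0, hL⟩ : ∃ L : ℝ, 0 ≤ L ∧ ∀ w, |q.Q w (rl J (Pi.single b 1))| ≤ L * ‖w‖ := by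
      let f : (Fin m → ℝ) →L[ℝ] ℝ := LinearMap.toContinuousLinearMap
        (q.Q.flip (rl J (Pi.single b 1)))
      exact ⟨‖f‖, norm_nonneg _, fun w => f.le_opNorm w⟩
    have hK0 : 0 ≤ K := by
      have := (norm_nonneg _).trans (hK 0)
      push_cast at this
      linarith
    refine ⟨L * K, mul_nonneg hL0 hK0, fun j => ?_⟩
    have hpow : ∀ (j : ℕ) (v : Fin m → ℝ), (S ^ j) ((T ^ j) v) = v := by
      intro j
      induction j with
      | zero => intro v; rfl
      | succ j ih =>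
        intro v
        rw [pow_succ, pow_succ']
        show (S ^ j) (S (T ((T ^ j) v))) = v
        rw [hST, ih]
    have h1 : (((D ^ j) a b : ℤ) : ℝ) = q.Q ((S ^ j) z) (rl J (Pi.single b 1)) := by
      rw [← rl_entry, quot_pow hQJ hT hD]
      have h2 := hz ((T ^ j) (rl J (Pi.single b 1)))
      have h3 : (rl Q ((T ^ j) (rl J (Pi.single b 1)))) a =
        q.Q z ((T ^ j) (rl J (Pi.single b 1))) := h2.symm
      rw [h3, ← pow_isom hS j z, hpow]
    rw [h1]
    refine (hL _).trans ?_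
    rw [mul_assoc]
    exact mul_le_mul_of_nonneg_left (hK j) hL0
  choose K hK0 hK using key
  refine ⟨∑ a, ∑ b, K a b, fun j a b => (hK a b j).trans ?_⟩
  apply mul_le_mul_of_nonneg_right _ (by positivity)
  have h1 : K a b ≤ ∑ b', K a b' :=
    Finset.single_le_sum (f := fun b' => K a b') (fun b' _ => hK0 a b') (Finset.mem_univ b)
  refine h1.trans ?_
  exact Finset.single_le_sum (f := fun a' => ∑ b', K a' b')
    (fun a' _ => Finset.sum_nonneg fun b' _ => hK0 a' b') (Finset.mem_univ a)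

/-- **No timelike vectors.** If the orthogonal complement of the kernel of `Q` contains no timelike
vector, then an isometry which is trivial modulo three on the quotient is unipotent there. -/
theorem unipotent_of_no_timelike (hQJ : Q * J = 1) (hW : ∀ z ∈ perp q Q, q.Q z z ≤ 0)
    {B : Matrix (Fin m) (Fin m) ℤ} (h : Good q Q B) {D' : Matrix (Fin r) (Fin r) ℤ}
    (hD' : D' * (Q * B * J) = 1) {C C' : Matrix (Fin r) (Fin r) ℤ}
    (hC : Q * B * J = 1 + 3 • C) (hC' : D' = 1 + 3 • C') : IsNilpotent (Q * B * J - 1) := by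
  obtain ⟨S, h1, h2, h3, h4, h5⟩ := h.inverse
  have hS : ∀ u v, q.Q (S u) (S v) = q.Q u v := by
    intro u v
    rw [← h.isom, h1, h1]
  have hD : ∀ v, rl (Q * B * J) v = rl Q (rl B (rl J v)) := by
    intro v
    rw [rl_mul, rl_mul]
  have hDS : ∀ v, rl D' v = rl Q (S (rl J v)) := by
    intro v
    have h6 : rl (Q * B * J) (rl Q (S (rl J v))) = v := by
      rw [hD, quot_apply hQJ h.ker, h1, ← rl_mul, hQJ, rl_one]
    conv_lhs => rw [← h6]
    rw [← rl_mul, hD', rl_one]
  have hnil : ∀ X : Matrix (Fin r) (Fin r) ℤ, IsNilpotent X → IsNilpotent (3 • X) := by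
    intro X hX
    have h6 : (3 • X : Matrix (Fin r) (Fin r) ℤ) = (3 : ℤ) • X := by
      rw [← natCast_zsmul]; rfl
    rw [h6]
    exact hX.smul _
  rcases growth hW h1 h2 h.isom h4 h5 with hg | hg
  · -- the inverse has bounded powers on the quotient
    obtain ⟨K, hK⟩ := bound_of_growth (q := q) (T := S) (S := rl B) hQJ h1 h.isom h3 hg hDS
    have h6 : IsNilpotent C' := nilpotent_of_growth C' K (by rw [← hC']; exact hK)
    have h7 : IsNilpotent (D' - 1) := by
      rw [hC', add_sub_cancel_left]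
      exact hnil _ h6
    have h8 : Q * B * J - 1 = -((Q * B * J) * (D' - 1)) := by
      have h9 : (Q * B * J) * D' = 1 := mul_eq_one_comm.1 hD'
      rw [mul_sub, h9, mul_one]; abel
    rw [h8]
    have hcomm : Commute (Q * B * J) (D' - 1) := by
      have h9 : (Q * B * J) * D' = 1 := mul_eq_one_comm.1 hD'
      show (Q * B * J) * (D' - 1) = (D' - 1) * (Q * B * J)
      rw [mul_sub, sub_mul, h9, hD', mul_one, one_mul]
    exact (hcomm.isNilpotent_mul_left h7).neg
  · obtain ⟨K, hK⟩ := bound_of_growth (q := q) (T := rl B) (S := S) hQJ h2 hS h.ker hg hD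
    have h6 : IsNilpotent C := nilpotent_of_growth C K (by rw [← hC]; exact hK)
    rw [hC, add_sub_cancel_left]
    exact hnil _ h6

/-- **Timelike vectors.** If the orthogonal complement of the kernel of `Q` contains a timelike
vector, then there is an invariant Lorentzian form on the quotient. -/
theorem exists_lor (hQJ : Q * J = 1) {t : Fin m → ℝ} (ht : t ∈ perp q Q) (htt : 0 < q.Q t t) :
    ∃ L : Lor r, ∀ B : Matrix (Fin m) (Fin m) ℤ, Good q Q B →
      ∀ u v, L.Q (rl (Q * B * J) u) (rl (Q * B * J) v) = L.Q u v := by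
  set N := LinearMap.ker (rl Q) with hN
  have hneg : ∀ n ∈ N, n ≠ 0 → q.Q n n < 0 := fun n hn h0 => neg_of_orth q htt (ht n hn) h0
  have hrefl : (q.Q : LinearMap.BilinForm ℝ (Fin m → ℝ)).IsRefl := by
    intro u v h
    rw [q.symm]; exact h
  have hnd : (LinearMap.BilinForm.restrict (q.Q : LinearMap.BilinForm ℝ (Fin m → ℝ)) N).Nondegenerate := by
    refine ⟨?_, ?_⟩
    · intro n hn
      by_contra h0
      have h1 := hneg n n.2 (fun h => h0 (Subtype.ext h))
      have h2 := hn n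
      have h3 : q.Q (n : Fin m → ℝ) n = 0 := h2
      linarith
    · intro n hn
      by_contra h0
      have h1 := hneg n n.2 (fun h => h0 (Subtype.ext h))
      have h2 := hn n
      have h3 : q.Q (n : Fin m → ℝ) n = 0 := h2
      linarith
  have hc : IsCompl N (perp q Q) := by
    have h1 := LinearMap.BilinForm.isCompl_orthogonal_of_restrict_nondegenerate hrefl hnd
    have h2 : LinearMap.BilinForm.orthogonal (q.Q : LinearMap.BilinForm ℝ (Fin m → ℝ)) N = perp q Q := by
      ext z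
      constructor
      · intro hz n hn
        rw [q.symm]
        exact hz n hn
      · intro hz n hn
        show q.Q n z = 0
        rw [q.symm]
        exact hz n hn
    rwa [h2] at h1
  -- the projection
  let p : (Fin m → ℝ) →ₗ[ℝ] (Fin m → ℝ) :=
    (perp q Q).subtype.comp (Submodule.linearProjOfIsCompl (perp q Q) N hc.symm)
  have hp1 : ∀ v, p v ∈ perp q Q := fun v => Subtype.coe_prop _
  have hp2 : ∀ v ∈ perp q Q, p v = v := fun v hv =>
    congrArg Subtype.val (Submodule.linearProjOfIsCompl_apply_left hc.symm ⟨v, hv⟩)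
  have hp3 : ∀ v, rl Q v = 0 → p v = 0 := fun v hv => by
    have := Submodule.linearProjOfIsCompl_apply_right hc.symm ⟨v, hv⟩
    exact congrArg Subtype.val this
  have hp4 : ∀ v, rl Q (v - p v) = 0 := by
    intro v
    have h1 : v - p v ∈ N := by
      have h2 : (Submodule.linearProjOfIsCompl (perp q Q) N hc.symm) (v - p v) = 0 := by
        apply Subtype.ext
        show p (v - p v) = 0
        rw [map_sub, hp2 _ (hp1 v), sub_self]
      exact (Submodule.linearProjOfIsCompl_apply_eq_zero_iff hc.symm).1 h2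
    exact h1
  have hpJQ : ∀ w, p (rl J (rl Q w)) = p w := by
    intro w
    have h1 := hp3 _ (ker_sub hQJ w)
    rw [map_sub, sub_eq_zero] at h1
    exact h1
  let f : (Fin r → ℝ) →ₗ[ℝ] (Fin m → ℝ) := p.comp (rl J)
  have hf0 : ∀ v, f v = 0 → v = 0 := by
    intro v hv
    have h1 : rl Q (rl J v) = 0 := by
      have h2 := hp4 (rl J v)
      have h3 : p (rl J v) = 0 := hv
      rw [h3, sub_zero] at h2
      exact h2
    rw [← rl_mul, hQJ, rl_one] at h1
    exact h1
  have hfQ : f (rl Q t) = t := by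
    show p (rl J (rl Q t)) = t
    rw [hpJQ, hp2 t ht]
  let L : Lor r :=
    { Q := q.Q.compl₁₂ f f
      symm := fun u v => q.symm _ _
      e := rl Q t
      pos := by
        show 0 < q.Q (f (rl Q t)) (f (rl Q t))
        rw [hfQ]; exact htt
      neg := by
        intro v hv h0
        have h1 : q.Q (f (rl Q t)) (f v) = 0 := hv
        rw [hfQ] at h1
        exact neg_of_orth q htt h1 (fun h => h0 (hf0 v h)) }
  refine ⟨L, fun B hB u v => ?_⟩
  have key : ∀ u, f (rl (Q * B * J) u) = rl B (f u) := by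
    intro u
    obtain ⟨S, -, -, -, h4, -⟩ := hB.inverse
    show p (rl J (rl (Q * B * J) u)) = rl B (p (rl J u))
    rw [rl_mul, rl_mul, hpJQ]
    have h1 : rl J u = p (rl J u) + (rl J u - p (rl J u)) := by abel
    conv_lhs => rw [h1]
    rw [map_add, map_add, hp3 _ (hB.ker _ (hp4 _)), add_zero, hp2 _ (h4 _ (hp1 _))]
  show q.Q (f (rl (Q * B * J) u)) (f (rl (Q * B * J) v)) = q.Q (f u) (f v)
  rw [key, key, hB.isom]

end Pool.Agent.Q217.Wein
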