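import Mathlib
import Pool.Agent.Q217.Wein.LorQuot
import Pool.Agent.W669.Cone.LorE
import Pool.Agent.TH607.Fx.RedS

/-! Closed Reeb orbits for contact forms with a local torus symmetry, not necessarily locally free,
whose monodromy preserves a Lorentzian form. -/

open scoped Topology ContDiff Manifold
open Set Metric Bundle Filter Pool.Agent.Helper186

noncomputable section

namespace Pool.Agent.Q217.Wein

open Pool.Agent.H826R2.Wein Pool.Agent.W669.Cone

set_option linter.unusedSectionVars false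

section

variable {E : Type*} [NormedAddCommGroup E] [NormedSpace ℝ E] [FiniteDimensional ℝ E]
  {P : Type*} [TopologicalSpace P] [ChartedSpace E P] [IsManifold 𝓘(ℝ, E) ∞ P]
  {β : (x : P) → TangentSpace 𝓘(ℝ, E) x →L[ℝ] ℝ} {r : ℕ}
  (A : TAct β r) {n : ℕ} {ι : Imm (E := E) P n} {Γ : Type*} [Group Γ] [MulAction Γ P]

/-- **Critical points, unipotent monodromy.** -/
theorem exists_crit_unipotent [T2Space P] [SigmaCompactSpace P] [Nonempty P]
    (hc : IsContact β) {R : (x : P) → TangentSpace 𝓘(ℝ, E) x} (hR : IsReeb β R) (𝒟 : Deck ι Γ)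
    (hN : A.Norm Γ) (hr : 0 < r) (B : Γ →* Matrix (Fin r) (Fin r) ℤ)
    (hB : ∀ (γ : Γ) (κ : Fin r → ℝ) (x : P), A.H (lin (B γ) κ) (γ • x) = A.H κ x)
    (hu : ∀ γ, IsNilpotent (B γ - 1)) :
    ∃ k : Fin r → ℤ, k ≠ 0 ∧ ∃ x, dForm 𝓘(ℝ, E) (A.H (TAct.rv k)) x = 0 := by
  obtain ⟨k, hk, hfix⟩ := exists_fixed_int hr B hu
  refine A.exists_crit_of_finite hc hR 𝒟 hN hk (Set.finite_singleton k)
    (fun γ => ⟨k, rfl, fun x => ?_⟩)
  have h1 : lin (B γ) (TAct.rv k) = TAct.rv k := by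
    have h2 := iv_im (B γ) k
    have h3 : im (B γ) k = k := hfix γ
    rw [h3] at h2
    exact h2.symm
  have h2 := hB γ (TAct.rv k) x
  rw [h1] at h2
  exact h2

/-- the kernel of the reduction modulo three -/
lemma exists_mod_three (B : Γ →* Matrix (Fin r) (Fin r) ℤ) :
    ∃ Γ₁ : Subgroup Γ, Γ₁.FiniteIndex ∧ ∀ γ ∈ Γ₁, ∃ C : Matrix (Fin r) (Fin r) ℤ,
      B γ = 1 + 3 • C := by
  classical
  let c : Matrix (Fin r) (Fin r) ℤ →+* Matrix (Fin r) (Fin r) (ZMod 3) :=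
    (Int.castRingHom (ZMod 3)).mapMatrix
  let f : Γ →* (Matrix (Fin r) (Fin r) (ZMod 3))ˣ := (Units.map c.toMonoidHom).comp B.toHomUnits
  have : NeZero 3 := ⟨by norm_num⟩
  have hfin : Finite (Matrix (Fin r) (Fin r) (ZMod 3)) := by
    have : Finite (Fin r → Fin r → ZMod 3) := inferInstance
    exact this
  have : Finite (Matrix (Fin r) (Fin r) (ZMod 3))ˣ :=
    Finite.of_injective (fun u => (u : Matrix (Fin r) (Fin r) (ZMod 3))) Units.val_injective
  have : Finite f.range := inferInstance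
  refine ⟨f.ker, Subgroup.finiteIndex_ker f, ?_⟩
  intro γ hγ
  have h1 : c (B γ) = 1 := congrArg Units.val (MonoidHom.mem_ker.1 hγ)
  have h2 : ∀ i j, ∃ z : ℤ, B γ i j = (1 : Matrix (Fin r) (Fin r) ℤ) i j + 3 * z := by
    intro i j
    have h3 : (((B γ i j - (1 : Matrix (Fin r) (Fin r) ℤ) i j : ℤ)) : ZMod 3) = 0 := by
      have h4 := congrFun (congrFun h1 i) j
      have h5 : ((B γ i j : ℤ) : ZMod 3) = (1 : Matrix (Fin r) (Fin r) (ZMod 3)) i j := h4
      rw [Int.cast_sub, h5, sub_eq_zero]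
      by_cases hij : i = j
      · subst hij; simp
      · simp [Matrix.one_apply_ne hij]
    obtain ⟨z, hz⟩ := (ZMod.intCast_zmod_eq_zero_iff_dvd _ 3).1 h3
    refine ⟨z, ?_⟩
    have h4 : B γ i j - (1 : Matrix (Fin r) (Fin r) ℤ) i j = 3 * z := by
      rw [hz]; rfl
    linarith
  choose C hC using h2
  refine ⟨Matrix.of C, ?_⟩
  ext i j
  rw [hC i j, Matrix.add_apply, Matrix.smul_apply, Matrix.of_apply]
  simp

end

end Pool.Agent.Q217.Wein

namespace Pool.Agent.Q217.LorS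

open Pool.Agent.H826R2.WStmt Pool.Agent.W669.Cone Pool.Agent.Q217.Wein

set_option linter.unusedSectionVars false

universe u v w x

variable {E : Type u} [NormedAddCommGroup E] [NormedSpace ℝ E] [FiniteDimensional ℝ E]
  {M : Type v} [TopologicalSpace M] [ChartedSpace E M] [IsManifold 𝓘(ℝ, E) ∞ M]
  {P : Type w} [TopologicalSpace P] [ChartedSpace E P] [IsManifold 𝓘(ℝ, E) ∞ P]
  {Γ : Type x} [Group Γ] [MulAction Γ P]

/-- the monodromy is virtually the quotient of a group of isometries of a Lorentzian form by a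
rational subspace -/
def LorQuot (Γ : Type*) [Group Γ] [MulAction Γ P] {r : ℕ} (act : (Fin r → ℝ) → P → P)
    {m : ℕ} (L : Lor m) : Prop :=
  ∃ (J : Matrix (Fin m) (Fin r) ℤ) (Q : Matrix (Fin r) (Fin m) ℤ), Q * J = 1 ∧
    ∃ Γ₀ : Subgroup Γ, Γ₀.FiniteIndex ∧ ∀ γ ∈ Γ₀, ∃ B : Matrix (Fin m) (Fin m) ℤ,
      Good L Q B ∧ ∀ (θ : Fin r → ℝ) (x : P), γ • act θ x = act (rl (Q * B * J) θ) (γ • x)

/-- **Closed orbits for quotients of Lorentzian monodromy.** -/
theorem exists_periodic_quot [T2Space M] [CompactSpace M]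
    (α : M → Cov E) (hα : IsContact α) (R : M → E) (hR : IsReeb α R)
    [T2Space P] [SigmaCompactSpace P] [ConnectedSpace P]
    (q : P → M) (hq : IsQuotientMap E q Γ) {r : ℕ} (hr : 0 < r)
    (A : TorusAction (pull (E := E) q α) r) (hA : Normalises Γ A.act)
    {m : ℕ} (L : Lor m) (hL : LorQuot Γ A.act L) :
    ∃ (c : ℝ → M) (T : ℝ), IsPeriodicOrbit R c T := by
  obtain ⟨J, Q, hQJ, Γ₀, hΓ₀, hmon⟩ := hL
  by_cases htime : ∃ t ∈ perp L Q, 0 < L.Q t t
  · obtain ⟨t, ht, htt⟩ := htime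
    obtain ⟨L', hL'⟩ := exists_lor (J := J) hQJ ht htt
    obtain ⟨c, T, h1, h2, h3⟩ := Pool.Agent.W669.Cone.exists_closed_orbit_lorentz hα.toWein
      hR.toWein hq.toWein A.toWein L' hA Γ₀ hΓ₀ (fun γ hγ => by
        obtain ⟨B, hB, hBA⟩ := hmon γ hγ
        exact ⟨Q * B * J, hBA, hL' B hB⟩)
    exact ⟨c, T, h1, h2, h3⟩
  · push Not at htime
    have hq' : Pool.Agent.H826R2.Wein.RegCover (E := E) q Γ := hq.toWein
    obtain ⟨N, ι, ⟨𝒟⟩⟩ := hq'.exists_deck
    have hN : A.toWein.Norm Γ := ⟨hq'.strict _, hA⟩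
    have hcP := hq'.isContact_pull hα.toWein
    have hRP := hq'.isReeb_lift hα.toWein hR.toWein
    obtain ⟨B', hB'⟩ := A.toWein.exists_monodromy hcP hRP 𝒟 hN
    have hB'' : ∀ (γ : Γ) (κ : Fin r → ℝ) (x : P),
        A.toWein.H (lin (B' γ) κ) (γ • x) = A.toWein.H κ x := hB'
    -- the monodromy is the quotient
    have huniq : ∀ γ ∈ Γ₀, ∃ B : Matrix (Fin m) (Fin m) ℤ, Good L Q B ∧ B' γ = Q * B * J := by
      intro γ hγ
      obtain ⟨B, hB, hBA⟩ := hmon γ hγ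
      refine ⟨B, hB, ?_⟩
      have hC : ∀ (κ : Fin r → ℝ) (x : P),
          A.toWein.H (lin (Q * B * J) κ) (γ • x) = A.toWein.H κ x := by
        intro κ x
        refine A.toWein.H_push (𝒟.smooth γ) ?_ (hN.strict γ) x
        intro t y
        unfold Pool.Agent.H826R2.Wein.TAct.fam
        show γ • A.act (t • κ) y = A.act (t • lin (Q * B * J) κ) (γ • y)
        rw [hBA]
        have h5 : rl (Q * B * J) (t • κ) = t • lin (Q * B * J) κ := map_smul _ _ _
        rw [h5]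
      have e : ∀ κ, lin (Q * B * J) κ = lin (B' γ) κ := by
        intro κ
        rw [← sub_eq_zero]
        apply A.toWein.H_inj ι hcP hRP
        intro y
        rw [A.toWein.H_sub]
        have h1 := hC κ (γ⁻¹ • y)
        have h2 := hB'' γ κ (γ⁻¹ • y)
        rw [smul_inv_smul] at h1 h2
        rw [h1, h2, sub_self]
      ext i j
      have h1 := congrFun (e (Pi.single j 1)) i
      have h2 : rl (Q * B * J) (Pi.single j 1) i = rl (B' γ) (Pi.single j 1) i := h1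
      rw [rl_entry, rl_entry] at h2
      exact_mod_cast h2.symm
    obtain ⟨Γ₁, hΓ₁, hmod⟩ := exists_mod_three B'
    have hfi : (Γ₀ ⊓ Γ₁).FiniteIndex := inferInstance
    set Γ₂ := Γ₀ ⊓ Γ₁ with hΓ₂
    have hu : ∀ γ : Γ₂, IsNilpotent ((B'.comp Γ₂.subtype) γ - 1) := by
      rintro ⟨γ, hγ⟩
      obtain ⟨B, hB, hBB⟩ := huniq γ hγ.1
      obtain ⟨C, hC⟩ := hmod γ hγ.2
      obtain ⟨C', hC'⟩ := hmod γ⁻¹ (Γ₁.inv_mem hγ.2)
      show IsNilpotent (B' γ - 1)
      rw [hBB]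
      refine unipotent_of_no_timelike (D' := B' γ⁻¹) (C := C) (C' := C') hQJ htime hB ?_
        (by rw [← hBB, hC]) hC'
      rw [← hBB, ← map_mul, inv_mul_cancel, map_one]
    have hN' : A.toWein.Norm Γ₂ := ⟨fun γ x u => hN.strict (γ : Γ) x u, fun γ => hN.norm (γ : Γ)⟩
    obtain ⟨k, hk, x, hx⟩ := exists_crit_unipotent A.toWein hcP hRP (𝒟.restrict Γ₂ hfi) hN' hr
      (B'.comp Γ₂.subtype) (fun γ κ x => hB'' (γ : Γ) κ x) hu
    obtain ⟨c, T, h1, h2, h3⟩ := hq'.closed_proj (A.toWein.closed_of_crit hcP hRP hk hx)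
    exact ⟨c, T, h1, h2, h3⟩

end Pool.Agent.Q217.LorS
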