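import Mathlib
import Pool.Agent.Q217.Wein.LorMain

/-! Reduction of torus symmetries to locally free ones, keeping track of the monodromy. -/

open scoped Topology ContDiff Manifold
open Set Metric Pool.Agent.Helper186 Pool.Agent.H826R2.WStmt

noncomputable section

namespace Pool.Agent.TH607.FxStmt

open Pool.Agent.Q217.Wein

set_option linter.unusedSectionVars false

universe u v w x

variable {E : Type u} [NormedAddCommGroup E] [NormedSpace ℝ E] [FiniteDimensional ℝ E]
  {M : Type v} [TopologicalSpace M] [ChartedSpace E M] [IsManifold 𝓘(ℝ, E) ∞ M]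
  {P : Type w} [TopologicalSpace P] [ChartedSpace E P] [IsManifold 𝓘(ℝ, E) ∞ P]
  {Γ : Type x} [Group Γ] [MulAction Γ P]

/-- how the reduced symmetry sits inside the given one -/
structure Reduced {β : P → Cov E} {m : ℕ} (A : TorusSymmetry β m) (x₀ : P)
    {P' : Type*} {Γ : Type*} [Group Γ] [MulAction Γ P] {Γ' : Type*} [Group Γ'] [MulAction Γ' P']
    {r : ℕ} (act' : (Fin r → ℝ) → P' → P')
    (val : P' → P) (f : Γ' →* Γ) (J : Matrix (Fin m) (Fin r) ℤ) (Q : Matrix (Fin r) (Fin m) ℤ) :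
    Prop where
  inj : Function.Injective val
  base : ∃ z, val z = x₀
  smul : ∀ γ z, val (γ • z) = f γ • val z
  act : ∀ θ z, val (act' θ z) = A.act (rl J θ) (val z)
  QJ : Q * J = 1
  ker : ∀ θ : Fin m → ℝ, rl Q θ = 0 ↔ θ ∈ A.toTS.isoAlg x₀
  iso : ∀ z, A.toTS.isoAlg (val z) = A.toTS.isoAlg x₀

/-- **Reduction theorem**, general form. -/
theorem reduction_gen [T2Space M] [CompactSpace M]
    (α : M → Cov E) (hα : IsContact α) (R : M → E) (hR : IsReeb α R)
    [T2Space P] [SigmaCompactSpace P]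
    (q : P → M) (hq : IsQuotientMap E q Γ)
    {m : ℕ} (A : TorusSymmetry (pull (E := E) q α) m) (hA : Normalises Γ A.act)
    (x₀ : P) (hmax : A.toTS.MaxIso x₀)
    (hW : ∀ (E' : Type u) [NormedAddCommGroup E'] [NormedSpace ℝ E'] [FiniteDimensional ℝ E']
      (M' : Type v) [TopologicalSpace M'] [ChartedSpace E' M'] [IsManifold 𝓘(ℝ, E') ∞ M']
      (P' : Type w) [TopologicalSpace P'] [ChartedSpace E' P'] [IsManifold 𝓘(ℝ, E') ∞ P']
      [T2Space M'] [CompactSpace M'] [T2Space P'] [SigmaCompactSpace P'] [ConnectedSpace P']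
      (Γ' : Type x) [Group Γ'] [MulAction Γ' P']
      (α' : M' → Cov E') (_ : IsContact α') (R' : M' → E') (_ : IsReeb α' R')
      (q' : P' → M') (_ : IsQuotientMap E' q' Γ')
      (A' : TorusAction (pull (E := E') q' α') (orbitDim E A.act x₀)) (_ : Normalises Γ' A'.act)
      (val : P' → P) (f : Γ' →* Γ) (J : Matrix (Fin m) (Fin (orbitDim E A.act x₀)) ℤ)
      (Q : Matrix (Fin (orbitDim E A.act x₀)) (Fin m) ℤ),
      Reduced A x₀ A'.act val f J Q →
      ContMDiff 𝓘(ℝ, E') 𝓘(ℝ, E) ∞ val →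
      pull (E := E') q' α' = pull (E := E') val (pull (E := E) q α) →
      ∃ (c : ℝ → M') (T : ℝ), IsPeriodicOrbit R' c T) :
    ∃ (c : ℝ → M) (T : ℝ), IsPeriodicOrbit R c T := by
  let B : TS (pullForm 𝓘(ℝ, E) 𝓘(ℝ, E) q (toForm α)) m := A.toTS
  have hq' : H826R2.Wein.RegCover (E := E) q Γ := hq.toWein
  obtain ⟨n, ι, ⟨𝒟⟩⟩ := hq'.exists_deck
  have hN : B.Norm Γ := ⟨hq'.strict _, hA⟩
  -- the model space
  let E' : Type u := B.ES (B.isoAlg x₀) x₀
  have hE' : Module.finrank ℝ E' = Module.finrank ℝ (B.ES (B.isoAlg x₀) x₀) := rfl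
  have hp : ∀ z ∈ B.C0 x₀, Nonempty (B.Pair E' q x₀ z) := fun z hz =>
    B.exists_pair hq' hN hmax ι E' hE' hz
  let SC : Slices (E := E) E' (B.C0 x₀) := ⟨fun z => (hp z z.2).some.s⟩
  have hMs : ∀ w : (q '' B.C0 x₀ : Set M), Nonempty (SliceAt (E := E) E' (q '' B.C0 x₀) (w : M)) := by
    rintro ⟨_, z, hz, rfl⟩
    exact ⟨(hp z hz).some.image⟩
  let SM : Slices (E := E) E' (q '' B.C0 x₀) := ⟨fun w => (hMs w).some⟩
  let csC : ChartedSpace E' (B.C0 x₀) := SC.charted
  let csM : ChartedSpace E' (q '' B.C0 x₀ : Set M) := SM.charted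
  have : IsManifold 𝓘(ℝ, E') ∞ (B.C0 x₀) := SC.isManifold
  have : IsManifold 𝓘(ℝ, E') ∞ (q '' B.C0 x₀ : Set M) := SM.isManifold
  have : CompactSpace (q '' B.C0 x₀ : Set M) :=
    isCompact_iff_compactSpace.1 (B.isClosed_image hq' hN hmax ι).isCompact
  have : SigmaCompactSpace (B.C0 x₀) :=
    B.isClosed_C0.isClosedEmbedding_subtypeVal.sigmaCompactSpace
  have : ConnectedSpace (B.C0 x₀) :=
    isConnected_iff_connectedSpace.1 ⟨⟨x₀, B.self_mem_C0 x₀⟩, B.isPreconnected_C0⟩
  -- the contact form and its Reeb field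
  set α' : (q '' B.C0 x₀ : Set M) → Cov E' :=
    pull (E := E') (Subtype.val : (q '' B.C0 x₀ : Set M) → M) α with hα'
  have hcon := B.contact_image SC SM rfl rfl hq' hα.toWein hR.toWein hp ι hE'
  have hcon' : IsContact α' := by
    refine ⟨hcon.smooth, ?_, fun x u hu hv => hcon.nondeg x u hu hv⟩
    intro x
    by_contra hno
    push Not at hno
    apply hcon.ne_zero x
    exact ContinuousLinearMap.ext fun v => hno v
  choose R' hR' using fun w => B.exists_reeb_image SC SM rfl rfl hq' hα.toWein hR.toWein ι hE' w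
  have hvM := SM.val rfl
  have hreeb : IsReeb α' R' := by
    constructor
    · intro w
      have h1 : ev (α' w) (R' w) = ev (α (w : M)) (R (w : M)) :=
        congrArg (fun v : E => ev (α (w : M)) v) (hR' w)
      rw [h1, hR.unit]
    · intro w v
      have h1 := extDer_pull hvM hα.toWein.smooth w (R' w) v
      have h2 : extDer α' w (R' w) v =
          extDer α (w : M) (B.DvM (E' := E') w (R' w)) (B.DvM (E' := E') w v) := h1
      rw [h2, hR' w, hR.kernel]
  -- the quotient torus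
  obtain ⟨L, hL⟩ := B.rational_isoAlg x₀
  obtain ⟨r, J, Q, hQJ, hQ⟩ := Pool.Agent.TH350.IntCompl.exists_complement L
  have hQ' : ∀ θ : Fin m → ℝ, (Q.map (Int.cast : ℤ → ℝ)).mulVec θ = 0 ↔ θ ∈ B.isoAlg x₀ := by
    intro θ
    rw [hQ, hL]
    rfl
  have hr : r = orbitDim E A.act x₀ := by
    have h1 := LinearMap.finrank_range_add_finrank_ker (B.XL x₀)
    have h2 := LinearMap.finrank_range_add_finrank_ker
      (Matrix.mulVecLin (Q.map (Int.cast : ℤ → ℝ)))
    have h3 : LinearMap.ker (Matrix.mulVecLin (Q.map (Int.cast : ℤ → ℝ))) =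
        LinearMap.ker (B.XL x₀) := by
      ext θ
      exact hQ' θ
    have h4 : LinearMap.range (Matrix.mulVecLin (Q.map (Int.cast : ℤ → ℝ))) = ⊤ := by
      rw [LinearMap.range_eq_top]
      intro v
      refine ⟨(J.map (Int.cast : ℤ → ℝ)).mulVec v, ?_⟩
      show (Q.map (Int.cast : ℤ → ℝ)).mulVec _ = v
      rw [Matrix.mulVec_mulVec, ← mapZ_mul, hQJ]
      have : (1 : Matrix (Fin r) (Fin r) ℤ).map (Int.cast : ℤ → ℝ) = 1 := by
        ext i j
        simp [Matrix.one_apply]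
      rw [this, Matrix.one_mulVec]
    rw [h3, h4, finrank_top, Module.finrank_fin_fun] at h2
    have h5 : orbitDim E A.act x₀ = Module.finrank ℝ (LinearMap.range (B.XL x₀)) := rfl
    omega
  subst hr
  obtain ⟨c, T, hT, hc, hper⟩ := hW E' (q '' B.C0 x₀ : Set M) (B.C0 x₀) (B.stabC Γ x₀) α' hcon'
    R' hreeb (B.q' q x₀) (by
      have h := B.regCover_q' SC SM rfl rfl hq' hN hmax hp
      exact ⟨h.surj, h.diffeo, h.smooth, h.fibre⟩)
    (B.torusC SC SM rfl rfl J Q hq' hmax hQJ hQ')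
    (B.normalises_actT J Q hN hQJ hQ') Subtype.val (B.stabC Γ x₀).subtype J Q
    { inj := Subtype.val_injective
      base := ⟨⟨x₀, B.self_mem_C0 x₀⟩, rfl⟩
      smul := fun _ _ => rfl
      act := fun _ _ => rfl
      QJ := hQJ
      ker := hQ'
      iso := fun z => B.isoAlg_eq hmax (B.C0_subset z.2) }
    (SC.val rfl) (by
      rw [pull_comp (B.smooth_q' SC SM rfl rfl hq') hvM, pull_comp (SC.val rfl) hq'.contMDiff]
      rfl)
  refine ⟨fun t => (c t : M), T, hT, ?_, fun t => congrArg Subtype.val (hper t)⟩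
  intro t
  have h2 := HasMFDerivAt.comp t (g := (Subtype.val : (q '' B.C0 x₀ : Set M) → M)) (f := c)
    ((hvM.mdifferentiableAt (by simp)).hasMFDerivAt) (hc t)
  refine h2.congr_mfderiv ?_
  refine ContinuousLinearMap.ext fun (r : ℝ) => ?_
  show B.DvM (E' := E') (c t) (r • R' (c t)) = r • R (c t : M)
  rw [map_smul, hR' (c t)]

namespace Reduced

variable {β : P → Cov E} {m : ℕ} {A : TorusSymmetry β m} {x₀ : P}
    {P' : Type*} {Γ' : Type*} [Group Γ'] [MulAction Γ' P']
    {r : ℕ} {act' : (Fin r → ℝ) → P' → P'}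
    {val : P' → P} {f : Γ' →* Γ} {J : Matrix (Fin m) (Fin r) ℤ} {Q : Matrix (Fin r) (Fin m) ℤ}
    (h : Reduced A x₀ act' val f J Q)

include h

/-- matrices of elements of the reduced group preserve the isotropy algebra -/
lemma ker_of_monodromy [T2Space P] {γ : Γ'} {B : Matrix (Fin m) (Fin m) ℤ}
    (hB : ∀ (θ : Fin m → ℝ) (x : P), f γ • A.act θ x = A.act (rl B θ) (f γ • x))
    (κ : Fin m → ℝ) (hκ : rl Q κ = 0) : rl Q (rl B κ) = 0 := by
  obtain ⟨z, hz⟩ := h.base
  rw [h.ker] at hκ ⊢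
  rw [← h.iso (γ • z), h.smul, hz]
  rw [A.toTS.mem_isoAlg_iff] at hκ ⊢
  intro t
  have h1 : A.act (t • κ) x₀ = x₀ := hκ t
  show A.act (t • rl B κ) (f γ • x₀) = f γ • x₀
  rw [← map_smul, ← hB, h1]

/-- on the reduced space only the class modulo the isotropy algebra acts -/
lemma act_congr [T2Space P] {a b : Fin m → ℝ} (hab : rl Q (a - b) = 0) (z : P') :
    A.act a (val z) = A.act b (val z) := by
  rw [h.ker, ← h.iso z, A.toTS.mem_isoAlg_iff] at hab
  have h1 : A.act ((1:ℝ) • (a - b)) (val z) = val z := hab 1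
  rw [one_smul] at h1
  have h2 : a = b + (a - b) := by abel
  conv_lhs => rw [h2]
  rw [A.add, h1]

lemma monodromy [T2Space P] {γ : Γ'} {B : Matrix (Fin m) (Fin m) ℤ}
    (hB : ∀ (θ : Fin m → ℝ) (x : P), f γ • A.act θ x = A.act (rl B θ) (f γ • x))
    (θ : Fin r → ℝ) (z : P') : γ • act' θ z = act' (rl (Q * B * J) θ) (γ • z) := by
  apply h.inj
  rw [h.smul, h.act, hB, h.act, ← h.smul]
  apply h.act_congr
  rw [rl_mul, rl_mul, map_sub, ← rl_mul Q J, h.QJ, rl_one, sub_self]

end Reduced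

end Pool.Agent.TH607.FxStmt

namespace Pool.Agent.Q217.LorS

open Pool.Agent.W669.Cone Pool.Agent.Q217.Wein Pool.Agent.TH607.FxStmt Pool.Agent.W669.LorStmt

set_option linter.unusedSectionVars false

universe u v w x

variable {E : Type u} [NormedAddCommGroup E] [NormedSpace ℝ E] [FiniteDimensional ℝ E]
  {M : Type v} [TopologicalSpace M] [ChartedSpace E M] [IsManifold 𝓘(ℝ, E) ∞ M]
  {P : Type w} [TopologicalSpace P] [ChartedSpace E P] [IsManifold 𝓘(ℝ, E) ∞ P]
  {Γ : Type x} [Group Γ] [MulAction Γ P]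

/-- preimages of subgroups of finite index -/
lemma finiteIndex_comap {G H : Type*} [Group G] [Group H] (f : G →* H) (K : Subgroup H)
    [hK : K.FiniteIndex] : (K.comap f).FiniteIndex := by
  refine ⟨?_⟩
  rw [Subgroup.index_comap]
  exact (Subgroup.instFiniteIndex_subgroupOf K f.range).index_ne_zero

/-- **Lorentzian monodromy, orbits of all dimensions.** -/
theorem exists_periodic_lorentz_all [T2Space M] [CompactSpace M]
    (α : M → Cov E) (hα : IsContact α) (R : M → E) (hR : IsReeb α R)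
    [T2Space P] [SigmaCompactSpace P] [ConnectedSpace P]
    (q : P → M) (hq : IsQuotientMap E q Γ)
    {m : ℕ} (A : TorusSymmetry (pull (E := E) q α) m) (hA : Normalises Γ A.act)
    (hne : ∃ θ y, A.act θ y ≠ y) (G : Matrix (Fin m) (Fin m) ℝ) (hG : IsLorentzian G)
    (hAG : MonodromyPreservesForm Γ A.act G) :
    ∃ (c : ℝ → M) (T : ℝ), IsPeriodicOrbit R c T := by
  obtain ⟨x₀, hx₀⟩ := exists_maxIso A
  rcases Nat.eq_zero_or_pos (orbitDim E A.act x₀) with h1 | h1
  · exact exists_periodic_of_small α hα R hR q hq A hA hne x₀ (by omega)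
  obtain ⟨e, he, hn⟩ := hG.signature
  obtain ⟨Γ₀, hΓ₀, hAG⟩ := hAG
  let L : Lor m :=
    { Q := bil G
      symm := by
        intro u v
        show form G u v = form G v u
        unfold form
        rw [Finset.sum_comm]
        refine Finset.sum_congr rfl fun i _ => Finset.sum_congr rfl fun j _ => ?_
        rw [hG.symm j i]
        ring
      e := e
      pos := he
      neg := hn }
  refine reduction_gen α hα R hR q hq A hA x₀ hx₀
    (fun E' _ _ _ M' _ _ _ P' _ _ _ _ _ _ _ _ Γ' _ _ α' hα' R' hR' q' hq' A' hA' val f J Q hred _ _ =>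
      exists_periodic_quot α' hα' R' hR' q' hq' h1 A' hA' L
        ⟨J, Q, hred.QJ, Γ₀.comap f, finiteIndex_comap f Γ₀, fun γ hγ => ?_⟩)
  obtain ⟨B, hB, hBG⟩ := hAG (f γ) hγ
  have hB' : ∀ (θ : Fin m → ℝ) (x : P), f γ • A.act θ x = A.act (rl B θ) (f γ • x) := hB
  exact ⟨B, ⟨hBG, hred.ker_of_monodromy hB'⟩, hred.monodromy hB'⟩

end Pool.Agent.Q217.LorS
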