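import Mathlib
import Pool.Agent.Q217.Wein.RedG
import Pool.Agent.W669.Cone.Stmt

/-! Closed Reeb orbits for contact forms with a local torus symmetry, not necessarily locally free,
whose monodromy preserves a convex cone on which the momentum is positive at a point of a smallest
orbit. -/

open scoped Topology ContDiff Manifold
open Set Metric Filter Pool.Agent.Helper186

noncomputable section

namespace Pool.Agent.Q217.ConeS

open Pool.Agent.H826R2.WStmt Pool.Agent.W669.ConeStmt Pool.Agent.Q217.Wein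
  Pool.Agent.TH607.FxStmt

set_option linter.unusedSectionVars false

/-- the image of a closed cone under a linear map whose kernel meets the cone only in zero -/
lemma isClosed_image_cone {m r : ℕ} (K : ConvexCone ℝ (Fin m → ℝ))
    (hK : IsClosed (K : Set (Fin m → ℝ))) (T : (Fin m → ℝ) →ₗ[ℝ] (Fin r → ℝ))
    (hT : ∀ κ ∈ K, T κ = 0 → κ = 0) : IsClosed (T '' (K : Set (Fin m → ℝ))) := by
  have hTc : Continuous T := LinearMap.continuous_of_finiteDimensional T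
  obtain ⟨δ, hδ, hb⟩ : ∃ δ > (0:ℝ), ∀ κ ∈ K, δ * ‖κ‖ ≤ ‖T κ‖ := by
    rcases ((K : Set (Fin m → ℝ)) ∩ sphere (0 : Fin m → ℝ) 1).eq_empty_or_nonempty with he | hne
    · refine ⟨1, one_pos, fun κ hκ => ?_⟩
      have h0 : κ = 0 := by
        by_contra h0
        have hn : 0 < ‖κ‖ := norm_pos_iff.2 h0
        have h1 : ‖κ‖⁻¹ • κ ∈ (K : Set (Fin m → ℝ)) ∩ sphere (0 : Fin m → ℝ) 1 := by
          refine ⟨K.smul_mem (inv_pos.2 hn) hκ, ?_⟩
          rw [mem_sphere_zero_iff_norm, norm_smul, norm_inv, norm_norm, inv_mul_cancel₀ hn.ne']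
        rw [he] at h1
        exact h1
      rw [h0]; simp
    · have hcomp : IsCompact ((K : Set (Fin m → ℝ)) ∩ sphere (0 : Fin m → ℝ) 1) :=
        (isCompact_sphere _ _).inter_left hK
      obtain ⟨κ₀, ⟨hκ₀, hκ₀s⟩, hmin⟩ := hcomp.exists_isMinOn hne hTc.norm.continuousOn
      have hκ₀0 : κ₀ ≠ 0 := by
        rintro rfl
        simp at hκ₀s
      refine ⟨‖T κ₀‖, norm_pos_iff.2 fun h => hκ₀0 (hT κ₀ hκ₀ h), fun κ hκ => ?_⟩
      by_cases h0 : κ = 0
      · rw [h0]; simp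
      · have hn : 0 < ‖κ‖ := norm_pos_iff.2 h0
        have h1 : ‖κ‖⁻¹ • κ ∈ (K : Set (Fin m → ℝ)) ∩ sphere (0 : Fin m → ℝ) 1 := by
          refine ⟨K.smul_mem (inv_pos.2 hn) hκ, ?_⟩
          rw [mem_sphere_zero_iff_norm, norm_smul, norm_inv, norm_norm, inv_mul_cancel₀ hn.ne']
        have h2 : ‖T κ₀‖ ≤ ‖T (‖κ‖⁻¹ • κ)‖ := hmin h1
        rw [map_smul, norm_smul, norm_inv, norm_norm, inv_mul_eq_div, le_div_iff₀ hn] at h2
        exact h2
  apply isClosed_of_closure_subset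
  intro y hy
  rw [mem_closure_iff_seq_limit] at hy
  obtain ⟨u, hu, hlim⟩ := hy
  set C : Set (Fin r → ℝ) := T '' ((K : Set (Fin m → ℝ)) ∩ closedBall 0 ((‖y‖ + 1) / δ)) with hC
  have hCc : IsCompact C :=
    ((isCompact_closedBall _ _).inter_left hK).image hTc
  have h1 : ∀ᶠ i in atTop, ‖u i‖ < ‖y‖ + 1 :=
    (hlim.norm).eventually_lt_const (by linarith)
  have h2 : ∀ᶠ i in atTop, u i ∈ C := by
    filter_upwards [h1] with i hi
    obtain ⟨κ, hκ, hκu⟩ := hu i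
    refine ⟨κ, ⟨hκ, ?_⟩, hκu⟩
    rw [mem_closedBall_zero_iff, le_div_iff₀ hδ, mul_comm]
    exact (hb κ hκ).trans (by rw [hκu]; exact hi.le)
  obtain ⟨κ, ⟨hκ, -⟩, hκy⟩ := hCc.isClosed.mem_of_tendsto hlim h2
  exact ⟨κ, hκ, hκy⟩

universe u v w x

variable {E : Type u} [NormedAddCommGroup E] [NormedSpace ℝ E] [FiniteDimensional ℝ E]
  {M : Type v} [TopologicalSpace M] [ChartedSpace E M] [IsManifold 𝓘(ℝ, E) ∞ M]
  {P : Type w} [TopologicalSpace P] [ChartedSpace E P] [IsManifold 𝓘(ℝ, E) ∞ P]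
  {Γ : Type x} [Group Γ] [MulAction Γ P]

/-- The momentum of the torus symmetry `A` of the one-form `β` at the point `x`: the linear form
`κ ↦ β (X_κ)` at `x`, where `X_κ` is the infinitesimal generator. -/
def symMomentum {β : P → Cov E} {m : ℕ} (A : TorusSymmetry β m) (x : P) (κ : Fin m → ℝ) : ℝ :=
  ev (β x) (D (E' := E) (fun θ : Fin m → ℝ => A.act θ x) 0 κ)

section mom

variable {β : P → Cov E} {m : ℕ} (A : TorusSymmetry β m)

lemma symMomentum_add (x : P) (a b : Fin m → ℝ) :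
    symMomentum A x (a + b) = symMomentum A x a + symMomentum A x b := by
  unfold symMomentum ev
  rw [map_add, map_add]

lemma symMomentum_iso (x : P) {a : Fin m → ℝ} (ha : a ∈ A.toTS.isoAlg x) :
    symMomentum A x a = 0 := by
  have h1 : (D (E' := E) (fun θ : Fin m → ℝ => A.act θ x) 0 a : E) = 0 := A.toTS.mem_isoAlg.1 ha
  unfold symMomentum ev
  rw [h1, map_zero]

variable {P' : Type*} [TopologicalSpace P'] {E' : Type*} [NormedAddCommGroup E']
  [NormedSpace ℝ E'] [ChartedSpace E' P'] [IsManifold 𝓘(ℝ, E') ∞ P']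

/-- the momentum of the reduced symmetry -/
lemma momentum_reduced {β' : P' → Cov E'} {r : ℕ} (A' : TorusAction β' r)
    {x₀ : P} {Γ : Type*} [Group Γ] [MulAction Γ P] {Γ' : Type*} [Group Γ'] [MulAction Γ' P']
    {val : P' → P} {f : Γ' →* Γ} {J : Matrix (Fin m) (Fin r) ℤ} {Q : Matrix (Fin r) (Fin m) ℤ}
    (h : Reduced A x₀ A'.act val f J Q) (hval : ContMDiff 𝓘(ℝ, E') 𝓘(ℝ, E) ∞ val)
    (hβ : β' = pull (E := E') val β) (z : P') (κ : Fin r → ℝ) :
    momentum A' z κ = symMomentum A (val z) (rl J κ) := by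
  have h1 : HasMFDerivAt 𝓘(ℝ, Fin r → ℝ) 𝓘(ℝ, E') (fun θ => A'.act θ z) 0
      (mfderiv 𝓘(ℝ, Fin r → ℝ) 𝓘(ℝ, E') (fun θ => A'.act θ z) 0) := by
    have h2 : ContMDiff 𝓘(ℝ, Fin r → ℝ) 𝓘(ℝ, E') ∞ (fun θ => A'.act θ z) :=
      ContMDiff.comp A'.smooth (contMDiff_id.prodMk contMDiff_const)
    exact (h2.mdifferentiableAt (by simp)).hasMFDerivAt
  have h2 : HasMFDerivAt 𝓘(ℝ, E') 𝓘(ℝ, E) val (A'.act 0 z)
      (mfderiv 𝓘(ℝ, E') 𝓘(ℝ, E) val (A'.act 0 z)) :=
    (hval.mdifferentiableAt (by simp)).hasMFDerivAt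
  have h3 := HasMFDerivAt.comp (0 : Fin r → ℝ) h2 h1
  let JL : (Fin r → ℝ) →L[ℝ] (Fin m → ℝ) := LinearMap.toContinuousLinearMap (rl J)
  have h4 : HasMFDerivAt 𝓘(ℝ, Fin r → ℝ) 𝓘(ℝ, Fin m → ℝ) (rl J) 0 JL :=
    (JL.hasFDerivAt).hasMFDerivAt
  have hsm : ContMDiff 𝓘(ℝ, Fin m → ℝ) 𝓘(ℝ, E) ∞ (fun θ => A.act θ (val z)) :=
    ContMDiff.comp A.smooth (contMDiff_id.prodMk contMDiff_const)
  have h5 : HasMFDerivAt 𝓘(ℝ, Fin m → ℝ) 𝓘(ℝ, E) (fun θ => A.act θ (val z)) (rl J 0)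
      (mfderiv 𝓘(ℝ, Fin m → ℝ) 𝓘(ℝ, E) (fun θ => A.act θ (val z)) (rl J 0)) :=
    (hsm.mdifferentiableAt (by simp)).hasMFDerivAt
  have h6 := HasMFDerivAt.comp (0 : Fin r → ℝ) h5 h4
  have hfun : val ∘ (fun θ => A'.act θ z) = (fun θ => A.act θ (val z)) ∘ (rl J) := by
    funext θ
    exact h.act θ z
  rw [hfun] at h3
  have h7 := DFunLike.congr_fun (hasMFDerivAt_unique h3 h6) κ
  have h8 : (mfderiv 𝓘(ℝ, E') 𝓘(ℝ, E) val (A'.act 0 z)
      (mfderiv 𝓘(ℝ, Fin r → ℝ) 𝓘(ℝ, E') (fun θ => A'.act θ z) 0 κ : E') : E) =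
      (mfderiv 𝓘(ℝ, Fin m → ℝ) 𝓘(ℝ, E) (fun θ => A.act θ (val z)) (rl J 0) (rl J κ) : E) := h7
  have h9 : ∀ η : Fin m → ℝ, η = 0 →
      (mfderiv 𝓘(ℝ, Fin m → ℝ) 𝓘(ℝ, E) (fun θ => A.act θ (val z)) η (rl J κ) : E) =
      D (E' := E) (fun θ : Fin m → ℝ => A.act θ (val z)) 0 (rl J κ) := by
    rintro _ rfl; rfl
  have h10 : ∀ y : P', y = z → ∀ v : E',
      (mfderiv 𝓘(ℝ, E') 𝓘(ℝ, E) val y v : E) = D (E' := E) val z v := by
    rintro _ rfl v; rfl
  have h11 : (D (E' := E) val z (D (E' := E') (fun θ => A'.act θ z) 0 κ) : E) =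
      D (E' := E) (fun θ : Fin m → ℝ => A.act θ (val z)) 0 (rl J κ) :=
    (h10 _ (A'.zero z) _).symm.trans (h8.trans (h9 _ (map_zero _)))
  have h12 : ∀ v : E', ev (β' z) v = ev (β (val z)) (D (E' := E) val z v) := by
    intro v
    have h13 : β' z = pull (E := E') val β z := congrFun hβ z
    rw [h13]
    rfl
  have h14 : momentum A' z κ =
      ev (β (val z)) (D (E' := E) val z (D (E' := E') (fun θ => A'.act θ z) 0 κ)) := h12 _
  rw [h14, h11]
  rfl

end mom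

/-- **Closed orbits, monodromy preserving a cone, orbits of all dimensions.** -/
theorem exists_periodic_cone_all [T2Space M] [CompactSpace M]
    (α : M → Cov E) (hα : IsContact α) (R : M → E) (hR : IsReeb α R)
    [T2Space P] [SigmaCompactSpace P]
    (q : P → M) (hq : IsQuotientMap E q Γ)
    {m : ℕ} (hm : 0 < m) (A : TorusSymmetry (pull (E := E) q α) m) (hA : Normalises Γ A.act)
    (K : ConvexCone ℝ (Fin m → ℝ)) (hK : IsClosed (K : Set (Fin m → ℝ)))
    (hKi : (interior (K : Set (Fin m → ℝ))).Nonempty) (hAK : MonodromyPreserves Γ A.act K)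
    (x : P) (hmin : ∀ y, orbitDim E A.act x ≤ orbitDim E A.act y)
    (hx : ∀ κ ∈ K, κ ≠ 0 → 0 < symMomentum A x κ) :
    ∃ (c : ℝ → M) (T : ℝ), IsPeriodicOrbit R c T := by
  have hmax : A.toTS.MaxIso x := by
    intro z
    have h1 := orbitDim_eq A x
    have h2 := orbitDim_eq A z
    have h3 := hmin z
    omega
  -- the cone contains a nonzero vector
  obtain ⟨κ₁, hκ₁, hκ₁0⟩ : ∃ κ ∈ K, κ ≠ 0 := by
    obtain ⟨κ₁, hκ₁⟩ := hKi
    by_contra hno
    push Not at hno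
    have h1 : (K : Set (Fin m → ℝ)) ⊆ {0} := fun κ hκ => hno κ hκ
    have : Nonempty (Fin m) := ⟨⟨0, hm⟩⟩
    have h2 : interior ({0} : Set (Fin m → ℝ)) = ∅ := interior_singleton 0
    have h3 := interior_mono h1 hκ₁
    rw [h2] at h3
    exact h3
  have hpos : 0 < orbitDim E A.act x := by
    by_contra h0
    have h1 := orbitDim_eq A x
    have h2 : Module.finrank ℝ (A.toTS.isoAlg x) = Module.finrank ℝ (Fin m → ℝ) := by
      rw [Module.finrank_fin_fun]; omega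
    have h3 := Submodule.eq_top_of_finrank_eq h2
    have h4 := hx κ₁ hκ₁ hκ₁0
    rw [symMomentum_iso A x (by rw [h3]; exact Submodule.mem_top)] at h4
    exact lt_irrefl _ h4
  obtain ⟨Γ₀, hΓ₀, hAK⟩ := hAK
  refine reduction_gen α hα R hR q hq A hA x hmax
    (fun E' _ _ _ M' _ _ _ P' _ _ _ _ _ _ _ _ Γ' _ _ α' hα' R' hR' q' hq' A' hA' val f J Q hred
      hval hβ => ?_)
  obtain ⟨z, hz⟩ := hred.base
  have hiso : ∀ κ : Fin m → ℝ, rl Q κ = 0 → κ ∈ K → κ = 0 := by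
    intro κ hκ hκK
    by_contra h0
    have h1 := hx κ hκK h0
    rw [symMomentum_iso A x ((hred.ker κ).1 hκ)] at h1
    exact lt_irrefl _ h1
  refine exists_periodic_cone α' hα' R' hR' q' hq' hpos A' hA' (K.map (rl Q)) ?_ ?_ ?_ z ?_
  · have h1 := isClosed_image_cone K hK (rl Q) (fun κ hκ h => hiso κ h hκ)
    exact h1
  · have hsurj : Function.Surjective (rl Q) := by
      intro v
      refine ⟨rl J v, ?_⟩
      rw [← rl_mul, hred.QJ, rl_one]
    have hopen : IsOpenMap (rl Q) :=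
      LinearMap.isOpenMap_of_finiteDimensional (rl Q) hsurj
    obtain ⟨κ, hκ⟩ := hKi
    refine ⟨rl Q κ, ?_⟩
    have h1 : IsOpen (rl Q '' interior (K : Set (Fin m → ℝ))) := hopen _ isOpen_interior
    refine interior_maximal ?_ h1 ⟨κ, hκ, rfl⟩
    exact image_mono interior_subset
  · refine ⟨Γ₀.comap f, Pool.Agent.Q217.LorS.finiteIndex_comap f Γ₀, fun γ hγ => ?_⟩
    obtain ⟨B, hB, hBK⟩ := hAK (f γ) hγ
    have hB' : ∀ (θ : Fin m → ℝ) (x : P), f γ • A.act θ x = A.act (rl B θ) (f γ • x) := hB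
    have hker := hred.ker_of_monodromy hB'
    refine ⟨Q * B * J, hred.monodromy hB', ?_⟩
    have key : ∀ κ, rl (Q * B * J) (rl Q κ) = rl Q (rl B κ) := by
      intro κ
      rw [rl_mul, rl_mul]
      exact quot_apply hred.QJ hker κ
    rcases hBK with h | h
    · left
      rintro _ ⟨κ, hκ, rfl⟩
      have h1 : rl (Q * B * J) (rl Q κ) ∈ K.map (rl Q) := by
        rw [key]
        exact ⟨rl B κ, h κ hκ, rfl⟩
      exact h1
    · right
      rintro _ ⟨κ, hκ, rfl⟩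
      have h1 : - rl (Q * B * J) (rl Q κ) ∈ K.map (rl Q) := by
        rw [key]
        exact ⟨- rl B κ, h κ hκ, map_neg _ _⟩
      exact h1
  · rintro _ ⟨κ, hκ, rfl⟩ hne
    have hκ0 : κ ≠ 0 := by
      rintro rfl
      exact hne (map_zero _)
    have h1 := momentum_reduced A A' hred hval hβ z (rl Q κ)
    have h2 : symMomentum A (val z) (rl J (rl Q κ)) = symMomentum A x κ := by
      rw [hz]
      have h3 : rl J (rl Q κ) = κ + (rl J (rl Q κ) - κ) := by abel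
      rw [h3, symMomentum_add, symMomentum_iso A x ((hred.ker _).1 (ker_sub hred.QJ κ)), add_zero]
    have h3 : momentum A' z (rl Q κ) = symMomentum A x κ := h1.trans h2
    show 0 < momentum A' z (rl Q κ)
    rw [h3]
    exact hx κ hκ hκ0

end Pool.Agent.Q217.ConeS
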